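import Pool.Agent.H45.TR.Minor
import Pool.Agent.H31.Q.Defs
import Pool.Agent.H77.Q.Defs

set_option autoImplicit false

/-!
Sides of the words of the rooted minors (MP_a46c6f_co, full Q1, row C).
-/

namespace Pool.Agent.H17.Q

open Finset Pool.Agent.H98.Code Pool.Agent.H26.TR Pool.Agent.H45.TR
open Pool.Agent.H31.Q (Sides)
open Pool.Agent.H77.Q (Irr RSides)

variable {V : Type} [Fintype V] [DecidableEq V]

/-- the words of the minor which avoid the root have a lift whose side without the root has its own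
places in the minor -/
def SB (L : Submodule (ZMod 2) (V → K)) (S : (V → K) → Finset V → Prop) (D : V → K)
    (Q : Finset (Finset V)) (h : Finset V → V) (e : V) (u : W Q → K) (Y : Finset (W Q)) : Prop :=
  ∃ t ∈ L, (fun w : W Q => t w.1) = u ∧ t e = 0 ∧
    (∀ v, v ∉ Set.range (Subtype.val : W Q → V) → kf (t v) (sg D Q h v) = 0) ∧
    ∃ Y₁, S t Y₁ ∧ e ∉ Y₁ ∧ ∀ v, v ∈ Y₁ ↔ ∃ w ∈ Y, w.1 = v

section
variable {L : Submodule (ZMod 2) (V → K)} {e : V} {D : V → K} {P Q : Finset (Finset V)}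
  {h : Finset V → V} {S : (V → K) → Finset V → Prop}

theorem uniq (hiso : ∀ u ∈ L, ∀ w ∈ L, form u w = 0) (hP : Parts L e D P) (hQ : Q ⊆ P)
    (hl : ∀ v, v ≠ e → (D v).1 = 1) (hh : ∀ M ∈ Q, h M ∈ M) (heW : ∀ M ∈ Q, e ∉ M) {u : V → K}
    (hu : u ∈ L) (h0 : ∀ w : W Q, u w.1 = 0)
    (hus : ∀ v, v ∉ Set.range (Subtype.val : W Q → V) → kf (u v) (sg D Q h v) = 0) : u = 0 := by
  have hue : u e = 0 := h0 ⟨e, heW⟩
  have hue1 : (u e).1 = 0 := by rw [hue]; rfl
  have hKD : KD L D e u := by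
    refine ⟨hu, ?_, Or.inl hue⟩
    intro v hv
    by_cases hvW : v ∈ Set.range (Subtype.val : W Q → V)
    · obtain ⟨w, rfl⟩ := hvW
      exact Or.inl (h0 w)
    · exact le_D hiso hP hQ hl hh hu hue1 hus hvW
  funext v
  by_cases hvW : v ∈ Set.range (Subtype.val : W Q → V)
  · obtain ⟨w, rfl⟩ := hvW
    exact h0 w
  · obtain ⟨M, hM, hvM⟩ := (nmem_range_iff Q v).1 hvW
    have hve : v ≠ e := fun h1 => heW M hM (h1 ▸ hvM)
    have hh0 : u (h M) = 0 := eq_zero_h hiso hP hQ hl hh hu hue1 hus hM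
    rcases hP.union u hKD M (hQ hM) with h1 | h1
    · exact absurd hh0 (Pool.Agent.H26.TR.mem_sup.1 (h1 (hh M hM))).2
    · by_contra hne
      exact Finset.disjoint_left.1 h1 hvM (Pool.Agent.H26.TR.mem_sup.2 ⟨hve, hne⟩)

/-- a splitting of a lift gives a splitting in the minor -/
theorem split_down (hiso : ∀ u ∈ L, ∀ w ∈ L, form u w = 0) (hP : Parts L e D P) (hQ : Q ⊆ P)
    (hl : ∀ v, v ≠ e → (D v).1 = 1) (hh : ∀ M ∈ Q, h M ∈ M) (heW : ∀ M ∈ Q, e ∉ M) {u : V → K}
    (hue : u e = 0)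
    (hus : ∀ v, v ∉ Set.range (Subtype.val : W Q → V) → kf (u v) (sg D Q h v) = 0)
    {g : V} (hs : Splits L u g) : ∃ g', Splits (N L D Q h) (fun w : W Q => u w.1) g' := by
  classical
  obtain ⟨c₁, hc₁, c₂, hc₂, hsum, hg1, hg2, hd⟩ := hs
  have hv1 : ∀ v, v ≠ g → c₁ v = 0 ∨ c₁ v = u v := by
    intro v hv
    rcases hd v hv with h1 | h1
    · exact Or.inl h1
    · right
      rw [← hsum, Pi.add_apply, h1, add_zero]
  have hv2 : ∀ v, v ≠ g → c₂ v = 0 ∨ c₂ v = u v := by
    intro v hv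
    rcases hd v hv with h1 | h1
    · right
      rw [← hsum, Pi.add_apply, h1, zero_add]
    · exact Or.inl h1
  have hgW : g ∈ Set.range (Subtype.val : W Q → V) := by
    by_contra hgW
    obtain ⟨M, hM, hgM⟩ := (nmem_range_iff Q g).1 hgW
    have hge : g ≠ e := fun h0 => heW M hM (h0 ▸ hgM)
    have key : ∀ c : V → K, c ∈ L → c g = z → (∀ v, v ≠ g → c v = 0 ∨ c v = u v) →
        g ≠ h M ∧ c (h M) ≠ 0 := by
      intro c hc hcg hcv
      have hce : c e = 0 := by
        rcases hcv e (Ne.symm hge) with h1 | h1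
        · exact h1
        · rw [h1, hue]
      have h0 := hiso c hc _ (hP.word M (hQ hM))
      unfold form at h0
      rw [← Finset.add_sum_erase _ _ (Finset.mem_univ g)] at h0
      have hg3 : kf (c g) (pw D e M g) = 1 := by
        unfold pw
        rw [if_neg hge, if_pos hgM, hcg, kf_z_left]
        exact hl g hge
      rw [hg3] at h0
      by_contra hcon
      have hrest : ∑ x ∈ Finset.univ.erase g, kf (c x) (pw D e M x) = 0 := by
        apply Finset.sum_eq_zero
        intro x hx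
        have hxg : x ≠ g := Finset.ne_of_mem_erase hx
        by_cases hxe : x = e
        · rw [hxe, hce, kf_zero_left]
        · unfold pw
          rw [if_neg hxe]
          by_cases hxM : x ∈ M
          · rw [if_pos hxM]
            by_cases hxh : x = h M
            · have hc0 : c (h M) = 0 := by
                by_contra hne
                apply hcon
                exact ⟨fun h1 => hxg (hxh.trans h1.symm), hne⟩
              rw [hxh, hc0, kf_zero_left]
            · rcases hcv x hxg with h1 | h1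
              · rw [h1, kf_zero_left]
              · rw [h1, ← sg_ne hP hQ hh hM hxM hxh]
                exact hus x ((nmem_range_iff Q x).2 ⟨M, hM, hxM⟩)
          · rw [if_neg hxM, kf_zero_right]
      rw [hrest] at h0
      exact absurd h0 (by decide)
    obtain ⟨h1, h2⟩ := key c₁ hc₁ hg1 hv1
    obtain ⟨_, h3⟩ := key c₂ hc₂ hg2 hv2
    rcases hd (h M) (Ne.symm h1) with h4 | h4
    · exact h2 h4
    · exact h3 h4
  obtain ⟨g', rfl⟩ := hgW
  have hin : ∀ c : V → K, (∀ v, v ≠ (g' : V) → c v = 0 ∨ c v = u v) →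
      ∀ v, v ∉ Set.range (Subtype.val : W Q → V) → kf (c v) (sg D Q h v) = 0 := by
    intro c hc v hv
    have hne : v ≠ (g' : V) := by
      rintro rfl
      exact hv ⟨g', rfl⟩
    rcases hc v hne with h1 | h1
    · rw [h1, kf_zero_left]
    · rw [h1]; exact hus v hv
  refine ⟨g', fun w => c₁ w, ⟨c₁, hc₁, hin c₁ hv1, rfl⟩, fun w => c₂ w,
    ⟨c₂, hc₂, hin c₂ hv2, rfl⟩, ?_, hg1, hg2, ?_⟩
  · funext w
    exact congrFun hsum w
  · intro w hw
    exact hd w (fun h0 => hw (Subtype.ext h0))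

theorem zfree_up (hP : Parts L e D P) (hQ : Q ⊆ P) (hl : ∀ v, v ≠ e → (D v).1 = 1) {u : V → K}
    (haz : ZFree (fun w : W Q => u w.1))
    (hus : ∀ v, v ∉ Set.range (Subtype.val : W Q → V) → kf (u v) (sg D Q h v) = 0) : ZFree u := by
  intro v
  by_cases hvW : v ∈ Set.range (Subtype.val : W Q → V)
  · obtain ⟨w, rfl⟩ := hvW
    exact haz w
  · obtain ⟨M, hM, hvM⟩ := (nmem_range_iff Q v).1 hvW
    have hve : v ≠ e := fun h0 => hP.nmem M (hQ hM) (h0 ▸ hvM)
    have h1 := hus v hvW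
    rw [kf_eq_zero_iff _ _ (sg_ne_zero hl hve)] at h1
    intro h2
    rcases h1 with h1 | h1
    · rw [h2] at h1; exact absurd h1 (by decide)
    · have h3 := sg_fst (Q := Q) (h := h) hl hve
      rw [← h1, h2] at h3
      exact absurd h3 (by decide)

/-- the own places of the side without the root are in the minor, or the word splits there -/
theorem own (hiso : ∀ u ∈ L, ∀ w ∈ L, form u w = 0) (hP : Parts L e D P) (hQ : Q ⊆ P)
    (hl : ∀ v, v ≠ e → (D v).1 = 1) (hh : ∀ M ∈ Q, h M ∈ M) (heW : ∀ M ∈ Q, e ∉ M)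
    (hS : Sides L S) {u : V → K} (hu : u ∈ L) (hue : u e = 0)
    (hus : ∀ v, v ∉ Set.range (Subtype.val : W Q → V) → kf (u v) (sg D Q h v) = 0)
    (hirr : Irr (N L D Q h) (fun w : W Q => u w.1)) {Y : Finset V} (hY : S u Y) (heY : e ∉ Y) :
    (∃ g', Splits (N L D Q h) (fun w : W Q => u w.1) g') ∨
      ∀ v ∈ Y, v ∈ Set.range (Subtype.val : W Q → V) := by
  classical
  by_contra hcon
  push Not at hcon
  obtain ⟨hns, v₀, hv₀, hv₀W⟩ := hcon
  obtain ⟨M, hM, hvM⟩ := (nmem_range_iff Q v₀).1 hv₀W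
  have hue1 : (u e).1 = 0 := by rw [hue]; rfl
  have hz := (hS.mem u Y hY).2
  have huD : ∀ v, v ∉ Set.range (Subtype.val : W Q → V) → u v = 0 ∨ u v = D v :=
    fun v hv => le_D hiso hP hQ hl hh hu hue1 hus hv
  have hv₀e : v₀ ≠ e := fun h0 => heY (h0 ▸ hv₀)
  -- the word of the part
  have hmL := hP.word M (hQ hM)
  have hmM : ∀ v ∈ M, pw D e M v = D v := by
    intro v hv
    have : v ≠ e := fun h0 => heW M hM (h0 ▸ hv)
    unfold pw
    rw [if_neg this, if_pos hv]
  have hm0 : ∀ v, v ≠ e → v ∉ M → pw D e M v = 0 := by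
    intro v h1 h2
    unfold pw
    rw [if_neg h1, if_neg h2]
  have hme : pw D e M e = z := by
    unfold pw
    rw [if_pos rfl]
  have hle : ∀ v, u v ≠ 0 → pw D e M v = 0 ∨ pw D e M v = u v := by
    intro v hv
    have hve : v ≠ e := fun h0 => hv (by rw [h0, hue])
    by_cases hvM' : v ∈ M
    · right
      rw [hmM v hvM']
      rcases huD v ((nmem_range_iff Q v).2 ⟨M, hM, hvM'⟩) with h1 | h1
      · exact absurd h1 hv
      · exact h1.symm
    · exact Or.inl (hm0 v hve hvM')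
  obtain ⟨k, hk, k1, k2, k3, -, -⟩ := hS.part u Y hY _ hmL hle
  have hke : k e = 0 := k2 e hue heY
  have hkW : ∀ w : W Q, k w.1 = 0 ∨ k w.1 = u w.1 := by
    intro w
    by_cases hw : u w.1 = 0
    · left
      by_cases hwY : w.1 ∈ Y
      · rw [k1 _ hwY]
        by_cases hwe : w.1 = e
        · exact absurd (hwe ▸ hwY) heY
        · exact hm0 _ hwe (w.2 M hM)
      · exact k2 _ hw hwY
    · exact k3 _ hw
  have hh0 : ∀ M' ∈ Q, u (h M') = 0 := fun M' hM' =>
    eq_zero_h hiso hP hQ hl hh hu hue1 hus hM'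
  have hkD : ∀ v, v ∉ Set.range (Subtype.val : W Q → V) → k v = 0 ∨ k v = D v := by
    intro v hv
    have hve : v ≠ e := by
      rintro rfl
      exact hv ⟨⟨v, heW⟩, rfl⟩
    by_cases hv0 : u v = 0
    · by_cases hvY : v ∈ Y
      · rw [k1 v hvY]
        by_cases hvM' : v ∈ M
        · exact Or.inr (hmM v hvM')
        · exact Or.inl (hm0 v hve hvM')
      · exact Or.inl (k2 v hv0 hvY)
    · rcases k3 v hv0 with h1 | h1
      · exact Or.inl h1
      · rw [h1]; exact huD v hv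
  have hkh : ∀ M' ∈ Q, M' ≠ M → k (h M') = 0 := by
    intro M' hM' hne
    by_cases hY' : h M' ∈ Y
    · rw [k1 _ hY']
      refine hm0 _ (fun h0 => heY (h0 ▸ hY')) ?_
      intro h1
      exact Finset.disjoint_left.1 (hP.disj M' (hQ hM') M (hQ hM) hne) (hh M' hM') h1
    · exact k2 _ (hh0 M' hM') hY'
  -- membership in the minor
  have hmem : ∀ c : V → K, (∀ v, v ∉ Set.range (Subtype.val : W Q → V) → c v = 0 ∨ c v = D v) →
      (∀ M' ∈ Q, c (h M') = 0) →
      ∀ v, v ∉ Set.range (Subtype.val : W Q → V) → kf (c v) (sg D Q h v) = 0 := by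
    intro c h1 h2 v hv
    obtain ⟨M', hM', hvM'⟩ := (nmem_range_iff Q v).1 hv
    by_cases hvh : v = h M'
    · rw [hvh, h2 M' hM', kf_zero_left]
    · rw [sg_ne hP hQ hh hM' hvM' hvh]
      rcases h1 v hv with h3 | h3
      · rw [h3, kf_zero_left]
      · rw [h3, kf_self]
  by_cases hkM : k (h M) = 0
  · have hkall : ∀ M' ∈ Q, k (h M') = 0 := by
      intro M' hM'
      by_cases h1 : M' = M
      · rw [h1]; exact hkM
      · exact hkh M' hM' h1
    have hkB : (fun w : W Q => k w.1) ∈ N L D Q h := ⟨k, hk, hmem k hkD hkall, rfl⟩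
    rcases hirr _ hkB (fun w => hkW w) with h1 | h1
    · have h2 : k = 0 := uniq hiso hP hQ hl hh heW hk (fun w => congrFun h1 w)
        (hmem k hkD hkall)
      have h3 := k1 v₀ hv₀
      rw [h2, hmM v₀ hvM] at h3
      have h4 := hl v₀ hv₀e
      rw [← h3] at h4
      have h5 : (0 : ZMod 2) = 1 := h4
      exact absurd h5 (by decide)
    · have h2 : k + u = 0 := by
        refine uniq hiso hP hQ hl hh heW (L.add_mem hk hu) (fun w => ?_) ?_
        · have h3 : k w.1 = u w.1 := congrFun h1 w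
          rw [Pi.add_apply, h3, k_add_self]
        · intro v hv
          rw [Pi.add_apply, kf_add_left, hmem k hkD hkall v hv, hus v hv, add_zero]
      have h3 := congrFun h2 v₀
      rw [Pi.add_apply, hz v₀ hv₀, add_zero, k1 v₀ hv₀, hmM v₀ hvM] at h3
      have h4 := hl v₀ hv₀e
      rw [h3] at h4
      have h5 : (0 : ZMod 2) = 1 := h4
      exact absurd h5 (by decide)
  · refine hns ⟨e, heW⟩ ?_
    have hD : k (h M) = D (h M) := by
      have h1 : h M ∉ Set.range (Subtype.val : W Q → V) :=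
        (nmem_range_iff Q _).2 ⟨M, hM, hh M hM⟩
      rcases hkD _ h1 with h2 | h2
      · exact absurd h2 hkM
      · exact h2
    have a1 : ∀ v, v ∉ Set.range (Subtype.val : W Q → V) →
        (k + pw D e M) v = 0 ∨ (k + pw D e M) v = D v := by
      intro v hv
      have hve : v ≠ e := by
        rintro rfl
        exact hv ⟨⟨v, heW⟩, rfl⟩
      rw [Pi.add_apply]
      by_cases hvM' : v ∈ M
      · rw [hmM v hvM']
        rcases hkD v hv with h1 | h1
        · rw [h1, zero_add]; exact Or.inr rfl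
        · rw [h1, k_add_self]; exact Or.inl rfl
      · rw [hm0 v hve hvM', add_zero]
        exact hkD v hv
    have a2 : ∀ M' ∈ Q, (k + pw D e M) (h M') = 0 := by
      intro M' hM'
      rw [Pi.add_apply]
      by_cases h1 : M' = M
      · rw [h1, hD, hmM _ (hh M hM), k_add_self]
      · rw [hkh M' hM' h1, zero_add]
        refine hm0 _ (fun h0 => heW M' hM' (h0 ▸ hh M' hM')) ?_
        intro h2
        exact Finset.disjoint_left.1 (hP.disj M' (hQ hM') M (hQ hM) h1) (hh M' hM') h2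
    have b1 : ∀ v, v ∉ Set.range (Subtype.val : W Q → V) →
        kf ((k + pw D e M) v) (sg D Q h v) = 0 := hmem _ a1 a2
    have b2 : ∀ v, v ∉ Set.range (Subtype.val : W Q → V) →
        kf ((u + (k + pw D e M)) v) (sg D Q h v) = 0 := by
      intro v hv
      rw [Pi.add_apply, kf_add_left, hus v hv, b1 v hv, add_zero]
    refine ⟨fun w => (k + pw D e M) w.1, ⟨_, L.add_mem hk hmL, b1, rfl⟩,
      fun w => (u + (k + pw D e M)) w.1, ⟨_, L.add_mem hu (L.add_mem hk hmL), b2, rfl⟩,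
      ?_, ?_, ?_, ?_⟩
    · funext w
      show (k + pw D e M) w.1 + (u w.1 + (k + pw D e M) w.1) = u w.1
      rw [add_left_comm, k_add_self, add_zero]
    · show k e + pw D e M e = z
      rw [hke, zero_add, hme]
    · show u e + (k e + pw D e M e) = z
      rw [hue, hke, zero_add, zero_add, hme]
    · intro w hw
      have hwe : w.1 ≠ e := fun h0 => hw (Subtype.ext h0)
      have h1 : pw D e M w.1 = 0 := hm0 _ hwe (w.2 M hM)
      show k w.1 + pw D e M w.1 = 0 ∨ u w.1 + (k w.1 + pw D e M w.1) = 0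
      rw [h1, add_zero]
      rcases hkW w with h2 | h2
      · exact Or.inl h2
      · right
        rw [h2, k_add_self]

/-- **row (C)**: the sides of the words of the rooted minors -/
theorem rsides (hiso : ∀ u ∈ L, ∀ w ∈ L, form u w = 0) (hP : Parts L e D P) (hQ : Q ⊆ P)
    (hl : ∀ v, v ≠ e → (D v).1 = 1) (hh : ∀ M ∈ Q, h M ∈ M) (heW : ∀ M ∈ Q, e ∉ M)
    (hS : Sides L S) :
    RSides (N L D Q h) (⟨e, heW⟩ : W Q) (SB L S D Q h e) := by
  classical
  -- a lift with a side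
  have hlift : ∀ u ∈ N L D Q h, ZFree u → u ⟨e, heW⟩ = 0 → ∀ t ∈ L,
      (fun w : W Q => t w.1) = u →
      (∀ v, v ∉ Set.range (Subtype.val : W Q → V) → kf (t v) (sg D Q h v) = 0) → t ≠ 0 →
      ∀ Y₁, S t Y₁ → e ∉ Y₁ → (∀ v ∈ Y₁, v ∈ Set.range (Subtype.val : W Q → V)) →
      (∃ g, Splits (N L D Q h) u g) ∨ ∃ Y : Finset (W Q), Y.Nonempty ∧
        (∀ v, v ∈ Y₁ ↔ ∃ w ∈ Y, w.1 = v) ∧ SB L S D Q h e u Y := by
    rintro u hu huz hue t ht rfl hts ht0 Y₁ hY₁ heY₁ hsub
    have hte : t e = 0 := hue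
    rcases Finset.eq_empty_or_nonempty Y₁ with h0 | h0
    · left
      subst h0
      have htz : ZFree t := zfree_up hP hQ hl huz hts
      obtain ⟨g, hg⟩ := hS.wc t hY₁ htz ht0
      exact split_down hiso hP hQ hl hh heW hte hts hg
    · right
      have hiff : ∀ v, v ∈ Y₁ ↔ ∃ w ∈ (Finset.univ.filter fun w : W Q => w.1 ∈ Y₁), w.1 = v := by
        intro v
        constructor
        · intro hv
          obtain ⟨w, rfl⟩ := hsub v hv
          exact ⟨w, Finset.mem_filter.2 ⟨Finset.mem_univ _, hv⟩, rfl⟩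
        · rintro ⟨w, hw, rfl⟩
          exact (Finset.mem_filter.1 hw).2
      refine ⟨Finset.univ.filter fun w : W Q => w.1 ∈ Y₁, ?_, hiff, ?_⟩
      · obtain ⟨v, hv⟩ := h0
        obtain ⟨w, hw, -⟩ := (hiff v).1 hv
        exact ⟨w, hw⟩
      · exact ⟨t, ht, rfl, hte, hts, Y₁, hY₁, heY₁, hiff⟩
  refine ⟨?_, ?_, ?_, ?_, ?_⟩
  · rintro u Y ⟨t, ht, -, hte, hts, Y₁, hY₁, heY₁, hiff⟩ h1
    exact heY₁ ((hiff e).2 ⟨_, h1, rfl⟩)
  · rintro u Y ⟨t, ht, rfl, hte, hts, Y₁, hY₁, heY₁, hiff⟩ w hw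
    exact (hS.mem t Y₁ hY₁).2 w.1 ((hiff w.1).2 ⟨w, hw, rfl⟩)
  · rintro u ⟨t, ht, hts, rfl⟩ huz hue hu0 hirr
    have hte : t e = 0 := hue
    have ht0 : t ≠ 0 := by
      rintro rfl
      exact hu0 rfl
    obtain ⟨Y₁, hY₁, heY₁⟩ : ∃ Y₁, S t Y₁ ∧ e ∉ Y₁ := by
      obtain ⟨Y, hY⟩ := hS.ex t ht
      by_cases heY : e ∈ Y
      · obtain ⟨Y', hY', hiff⟩ := hS.compl t Y hY
        exact ⟨Y', hY', fun h1 => ((hiff e).1 h1).2 heY⟩
      · exact ⟨Y, hY, heY⟩
    rcases own hiso hP hQ hl hh heW hS ht hte hts hirr hY₁ heY₁ with h1 | h1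
    · exact Or.inl h1
    · rcases hlift _ ⟨t, ht, hts, rfl⟩ huz hue t ht rfl hts ht0 Y₁ hY₁ heY₁ h1 with
        h2 | ⟨Y, h2, -, h3⟩
      · exact Or.inl h2
      · exact Or.inr ⟨Y, h2, h3⟩
  · rintro u Y ⟨t, ht, rfl, hte, hts, Y₁, hY₁, heY₁, hiff⟩ k ⟨s, hs, hss, rfl⟩ hk
    have hte1 : (t e).1 = 0 := by rw [hte]; rfl
    have hle : ∀ v, t v ≠ 0 → s v = 0 ∨ s v = t v := by
      intro v hv
      by_cases hvW : v ∈ Set.range (Subtype.val : W Q → V)
      · obtain ⟨w, rfl⟩ := hvW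
        exact hk w hv
      · have hve : v ≠ e := by
          rintro rfl
          exact hvW ⟨⟨v, heW⟩, rfl⟩
        have h1 := (kf_eq_zero_iff _ _ (sg_ne_zero hl hve)).1 (hts v hvW)
        have h2 := (kf_eq_zero_iff _ _ (sg_ne_zero hl hve)).1 (hss v hvW)
        rcases h1 with h1 | h1
        · exact absurd h1 hv
        · rcases h2 with h2 | h2
          · exact Or.inl h2
          · exact Or.inr (h2.trans h1.symm)
    obtain ⟨k', hk', k1, k2, k3, -, -⟩ := hS.part t Y₁ hY₁ s hs hle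
    refine ⟨fun w => k' w.1, ⟨k', hk', ?_, rfl⟩, ?_, ?_, ?_⟩
    · intro v hv
      by_cases hv0 : t v = 0
      · have hvY : v ∉ Y₁ := by
          intro h1
          obtain ⟨w, -, hw⟩ := (hiff v).1 h1
          exact hv ⟨w, hw⟩
        rw [k2 v hv0 hvY, kf_zero_left]
      · rcases k3 v hv0 with h1 | h1
        · rw [h1, kf_zero_left]
        · rw [h1]; exact hts v hv
    · intro w hw
      exact k1 w.1 ((hiff w.1).2 ⟨w, hw, rfl⟩)
    · intro w hw hwY
      refine k2 w.1 hw ?_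
      intro h1
      obtain ⟨w', hw', h2⟩ := (hiff w.1).1 h1
      have : w' = w := Subtype.ext h2
      exact hwY (this ▸ hw')
    · intro w hw
      exact k3 w.1 hw
  · rintro u Y ⟨t, ht, rfl, hte, hts, Y₁, hY₁, heY₁, hiff⟩ hirr k ⟨s, hs, hss, rfl⟩ hkz hk0 - hk1
      hk2
    have hse : s e = 0 := by
      refine hk2 ⟨e, heW⟩ hte ?_
      intro h1
      exact heY₁ ((hiff e).2 ⟨_, h1, rfl⟩)
    have hle : ∀ v, t v ≠ 0 → s v = 0 ∨ s v = t v := by
      intro v hv
      by_cases hvW : v ∈ Set.range (Subtype.val : W Q → V)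
      · obtain ⟨w, rfl⟩ := hvW
        exact hk1 w hv
      · have hve : v ≠ e := by
          rintro rfl
          exact hvW ⟨⟨v, heW⟩, rfl⟩
        have h1 := (kf_eq_zero_iff _ _ (sg_ne_zero hl hve)).1 (hts v hvW)
        have h2 := (kf_eq_zero_iff _ _ (sg_ne_zero hl hve)).1 (hss v hvW)
        rcases h1 with h1 | h1
        · exact absurd h1 hv
        · rcases h2 with h2 | h2
          · exact Or.inl h2
          · exact Or.inr (h2.trans h1.symm)
    obtain ⟨k', hk', k1, k2, k3, ⟨Y₂, hY₂, hS₂⟩, ⟨Y₃, hY₃, hS₃⟩⟩ := hS.part t Y₁ hY₁ s hs hle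
    have hks : ∀ v, v ∉ Set.range (Subtype.val : W Q → V) → kf (k' v) (sg D Q h v) = 0 := by
      intro v hv
      by_cases hv0 : t v = 0
      · have hvY : v ∉ Y₁ := by
          intro h1
          obtain ⟨w, -, hw⟩ := (hiff v).1 h1
          exact hv ⟨w, hw⟩
        rw [k2 v hv0 hvY, kf_zero_left]
      · rcases k3 v hv0 with h1 | h1
        · rw [h1, kf_zero_left]
        · rw [h1]; exact hts v hv
    have hd : ∀ w : W Q, k' w.1 + s w.1 = 0 ∨ k' w.1 + s w.1 = t w.1 := by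
      intro w
      by_cases hw : t w.1 = 0
      · left
        by_cases hwY : w.1 ∈ Y₁
        · rw [k1 _ hwY, k_add_self]
        · have h1 : s w.1 = 0 := by
            refine hk2 w hw ?_
            intro h2
            exact hwY ((hiff w.1).2 ⟨w, h2, rfl⟩)
          rw [k2 _ hw hwY, h1, add_zero]
      · rcases k3 _ hw with h1 | h1 <;> rcases hle _ hw with h2 | h2
        · rw [h1, h2, add_zero]; exact Or.inl rfl
        · rw [h1, h2, zero_add]; exact Or.inr rfl
        · rw [h1, h2, add_zero]; exact Or.inr rfl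
        · rw [h1, h2, k_add_self]; exact Or.inl rfl
    have hsub : ∀ Y₄ : Finset V, Y₄ ⊆ Y₁ → (∀ v ∈ Y₄, v ∈ Set.range (Subtype.val : W Q → V)) := by
      intro Y₄ h1 v hv
      obtain ⟨w, -, hw⟩ := (hiff v).1 (h1 hv)
      exact ⟨w, hw⟩
    have hdB : (fun w : W Q => k' w.1 + s w.1) ∈ N L D Q h := by
      refine ⟨k' + s, L.add_mem hk' hs, ?_, rfl⟩
      intro v hv
      rw [Pi.add_apply, kf_add_left, hks v hv, hss v hv, add_zero]
    have hfin : ∀ t' ∈ L, (fun w : W Q => t' w.1) = (fun w : W Q => s w.1) →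
        (∀ v, v ∉ Set.range (Subtype.val : W Q → V) → kf (t' v) (sg D Q h v) = 0) →
        ∀ Y₄, Y₄ ⊆ Y₁ → S t' Y₄ →
        (∃ g, Splits (N L D Q h) (fun w : W Q => s w.1) g) ∨
          ∃ Y' : Finset (W Q), Y' ⊆ Y ∧ Y'.Nonempty ∧ SB L S D Q h e (fun w => s w.1) Y' := by
      intro t' ht' he' hts' Y₄ hY₄ hS₄
      have ht0 : t' ≠ 0 := by
        rintro rfl
        exact hk0 he'.symm
      rcases hlift _ ⟨s, hs, hss, rfl⟩ hkz hse t' ht' he' hts' ht0 Y₄ hS₄
        (fun h1 => heY₁ (hY₄ h1)) (hsub Y₄ hY₄) with h1 | ⟨Y', h1, h2, h3⟩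
      · exact Or.inl h1
      · refine Or.inr ⟨Y', ?_, h1, h3⟩
        intro w hw
        obtain ⟨w', hw', h4⟩ := (hiff w.1).1 (hY₄ ((h2 w.1).2 ⟨w, hw, rfl⟩))
        have : w' = w := Subtype.ext h4
        exact this ▸ hw'
    rcases hirr _ hdB hd with h1 | h1
    · refine hfin k' hk' ?_ hks Y₂ hY₂ hS₂
      funext w
      have h2 : k' w.1 + s w.1 = 0 := congrFun h1 w
      have h3 : k' w.1 + s w.1 + s w.1 = s w.1 := by rw [h2, zero_add]
      rwa [add_assoc, k_add_self, add_zero] at h3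
    · refine hfin (k' + t) (L.add_mem hk' ht) ?_ ?_ Y₃ hY₃ hS₃
      · funext w
        have h2 : k' w.1 + s w.1 = t w.1 := congrFun h1 w
        show k' w.1 + t w.1 = s w.1
        rw [← h2, ← add_assoc, k_add_self, zero_add]
      · intro v hv
        rw [Pi.add_apply, kf_add_left, hks v hv, hts v hv, add_zero]

end

end Pool.Agent.H17.Q
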